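import Pool.Agent.H78.OX.Targets

set_option autoImplicit false

namespace Pool.Agent.H67.OX

open Pool.Agent.H6.NB Pool.Agent.H70.OQ Pool.Agent.H70.EH Pool.Agent.H78.XQ Pool.Agent.H78.OX

theorem dcx (hCOD : Pool.Agent.H6.NB.T_COD) : Pool.Agent.H78.OX.T_DCX := by
  intro s
  refine ⟨(key s).length + (2 * s.length + 2 * (2 * s.length + qs s) + 6) +
    (2 * s.length + 2 * wlx s + 6), ?_⟩
  intro σ σ' h
  have hkey : σ (key s) = σ' (key s) := h _ (by omega)
  have hcps : cps (sh σ) s = cps (sh σ') s := by
    funext u v
    unfold cps cpx sh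
    apply h
    unfold pos
    rw [List.length_cons, List.length_cons, hCOD.2, List.length_append, List.length_ofFn,
      List.length_ofFn]
    have hb : v.1.toNat ≤ 1 := Bool.toNat_le _
    omega
  have hcor : (fun z : Fin (wlx s) → Bool => sh σ (wps s (List.ofFn z))) =
      fun z => sh σ' (wps s (List.ofFn z)) := by
    funext z
    unfold sh wps
    apply h
    rw [List.length_cons, List.length_cons, hCOD.2, List.length_ofFn]
    omega
  unfold DecX
  rw [hkey, hcps, hcor]

end Pool.Agent.H67.OX
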